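import Pool.Agent.Y256.Seg.Model

open Set Filter Topology MeasureTheory

namespace Pool.Agent.Y256.Seg

open Pool.Agent.Helper842.Seg (E3 F e3 norm_e3 F_off ray_NI)
open Pool.Agent.Helper842.SegM (ray)

section prod

variable (G : Type*) [NormedAddCommGroup G] [InnerProductSpace ℝ G]

theorem mem_V0 (x : WithLp 2 (E3 × G)) : x ∈ V0 G ↔ x.fst ∈ Submodule.span ℝ {e3} := Iff.rfl

/-- the codimension two subspace as a product -/
noncomputable def V0equiv : V0 G ≃ₗ[ℝ] (Submodule.span ℝ {e3} : Submodule ℝ E3) × G where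
  toFun x := (⟨x.1.fst, x.2⟩, x.1.snd)
  invFun p := ⟨WithLp.toLp 2 (p.1.1, p.2), p.1.2⟩
  map_add' _ _ := rfl
  map_smul' _ _ := rfl
  left_inv _ := rfl
  right_inv _ := rfl

theorem e3_ne0 : e3 ≠ 0 := by
  rw [← norm_pos_iff, norm_e3]; exact one_pos

theorem finrank_V0 [FiniteDimensional ℝ G] :
    Module.finrank ℝ (V0 G) = 1 + Module.finrank ℝ G := by
  rw [(V0equiv G).finrank_eq, Module.finrank_prod, finrank_span_singleton e3_ne0]

/-- the unit vector in the direction of the ray -/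
noncomputable def u0 : WithLp 2 (E3 × G) := WithLp.toLp 2 (e3, 0)

theorem u0_mem : u0 G ∈ V0 G := by
  rw [mem_V0]
  exact Submodule.mem_span_singleton_self e3

theorem norm_u0 : ‖u0 G‖ = 1 := by
  have h := WithLp.prod_norm_sq_eq_of_L2 (u0 G)
  have h1 : (u0 G).fst = e3 := rfl
  have h2 : (u0 G).snd = 0 := rfl
  rw [h1, h2, norm_e3, norm_zero] at h
  have h3 : 0 ≤ ‖u0 G‖ := norm_nonneg _
  nlinarith

theorem inner_u0 (x : WithLp 2 (E3 × G)) : inner ℝ x (u0 G) = inner ℝ x.fst e3 := by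
  rw [WithLp.prod_inner_apply]
  show inner ℝ x.fst e3 + inner ℝ x.snd (0 : G) = _
  rw [inner_zero_right, add_zero]

theorem mem_H0 (x : WithLp 2 (E3 × G)) : x ∈ H0 G ↔ x ∈ V0 G ∧ 0 ≤ inner ℝ x (u0 G) := by
  rw [mem_V0, inner_u0]
  constructor
  · rintro ⟨s, hs, h⟩
    refine ⟨?_, ?_⟩
    · rw [h]
      exact Submodule.smul_mem _ _ (Submodule.mem_span_singleton_self e3)
    · rw [h, real_inner_smul_left, real_inner_self_eq_norm_sq, norm_e3]
      simpa using hs
  · rintro ⟨h1, h2⟩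
    obtain ⟨s, hs⟩ := Submodule.mem_span_singleton.1 h1
    refine ⟨s, ?_, hs.symm⟩
    rw [← hs, real_inner_smul_left, real_inner_self_eq_norm_sq, norm_e3] at h2
    simpa using h2

end prod

/-- moving a codimension two subspace to the model one -/
theorem exists_isom {E : Type*} [NormedAddCommGroup E] [InnerProductSpace ℝ E]
    [FiniteDimensional ℝ E] (V : Submodule ℝ E) (m : ℕ) (hE : Module.finrank ℝ E = 3 + m)
    (hV : Module.finrank ℝ V = 1 + m) :
    ∃ L : E ≃ₗᵢ[ℝ] WithLp 2 (E3 × EuclideanSpace ℝ (Fin m)),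
      ∀ x, x ∈ V ↔ L x ∈ V0 (EuclideanSpace ℝ (Fin m)) := by
  set G := EuclideanSpace ℝ (Fin m) with hG
  have hX : Module.finrank ℝ (WithLp 2 (E3 × G)) = 3 + m := by
    rw [(WithLp.linearEquiv 2 ℝ (E3 × G)).finrank_eq, Module.finrank_prod,
      finrank_euclideanSpace_fin, finrank_euclideanSpace_fin]
  have hV0 : Module.finrank ℝ (V0 G) = 1 + m := by
    rw [finrank_V0, finrank_euclideanSpace_fin]
  let L1 : E ≃ₗᵢ[ℝ] WithLp 2 (E3 × G) :=
    (stdOrthonormalBasis ℝ E).equiv (stdOrthonormalBasis ℝ (WithLp 2 (E3 × G)))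
      (finCongr (hE.trans hX.symm))
  let k : V0 G ≃ₗᵢ[ℝ] V :=
    (stdOrthonormalBasis ℝ (V0 G)).equiv (stdOrthonormalBasis ℝ V)
      (finCongr (hV0.trans hV.symm))
  let j : V0 G →ₗᵢ[ℝ] WithLp 2 (E3 × G) :=
    L1.toLinearIsometry.comp (V.subtypeₗᵢ.comp k.toLinearIsometry)
  let K : WithLp 2 (E3 × G) ≃ₗᵢ[ℝ] WithLp 2 (E3 × G) := j.extend.toLinearIsometryEquiv rfl
  have hK : ∀ x : V0 G, K x = L1 (k x) := fun x => LinearIsometry.extend_apply j x
  refine ⟨L1.trans K.symm, fun x => ?_⟩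
  have hx : K ((L1.trans K.symm) x) = L1 x := by simp
  constructor
  · intro h
    have h1 : (L1.trans K.symm) x = (k.symm ⟨x, h⟩ : V0 G) := by
      apply K.injective
      rw [hx, hK, k.apply_symm_apply]
    rw [h1]
    exact Subtype.mem _
  · intro h
    have h1 : L1 x = L1 (k ⟨_, h⟩) := by
      rw [← hK ⟨_, h⟩, ← hx]
    rw [L1.injective h1]
    exact Subtype.mem _

/-- membership in a ball of an affine subspace in terms of the inversion at a boundary point -/
theorem disc_iff {E : Type*} [NormedAddCommGroup E] [InnerProductSpace ℝ E]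
    (A : AffineSubspace ℝ E) (c u : E) (ρ : ℝ) (hρ : 0 < ρ) (hc : c ∈ A)
    (hu : u ∈ A.direction) (hu1 : ‖u‖ = 1) (y : E) (hy : y ≠ c - ρ • u) :
    (y ∈ A ∧ dist y c ≤ ρ) ↔ (inv (y - (c - ρ • u)) - (2 * ρ)⁻¹ • u ∈ A.direction ∧
      0 ≤ inner ℝ (inv (y - (c - ρ • u)) - (2 * ρ)⁻¹ • u) u) := by
  set w := y - (c - ρ • u) with hw
  have hw0 : w ≠ 0 := sub_ne_zero.2 hy
  have hwn : 0 < ‖w‖ ^ 2 := by
    have := norm_pos_iff.2 hw0
    positivity
  have hyc : y - c = w - ρ • u := by rw [hw]; abel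
  have h1 : y ∈ A ↔ w ∈ A.direction := by
    constructor
    · intro h
      rw [hw]
      have e : y - (c - ρ • u) = (y -ᵥ c) + ρ • u := by rw [vsub_eq_sub]; abel
      rw [e]
      exact A.direction.add_mem (AffineSubspace.vsub_mem_direction h hc) (A.direction.smul_mem _ hu)
    · intro h
      have e : y = (w - ρ • u) +ᵥ c := by rw [vadd_eq_add, ← hyc]; abel
      rw [e]
      exact AffineSubspace.vadd_mem_of_mem_direction
        (A.direction.sub_mem h (A.direction.smul_mem _ hu)) hc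
  have h2 : dist y c ≤ ρ ↔ ‖w‖ ^ 2 ≤ 2 * ρ * inner ℝ w u := by
    rw [dist_eq_norm, hyc]
    have e : ‖w - ρ • u‖ ^ 2 = ‖w‖ ^ 2 - 2 * ρ * inner ℝ w u + ρ ^ 2 := by
      rw [norm_sub_sq_real, real_inner_smul_right, norm_smul, hu1, Real.norm_of_nonneg hρ.le]
      ring
    constructor
    · intro h
      have : ‖w - ρ • u‖ ^ 2 ≤ ρ ^ 2 := pow_le_pow_left₀ (norm_nonneg _) h 2
      linarith
    · intro h
      apply le_of_sq_le_sq _ hρ.le
      linarith
  have h3 : inv w - (2 * ρ)⁻¹ • u ∈ A.direction ↔ w ∈ A.direction := by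
    constructor
    · intro h
      have h' : inv w ∈ A.direction := by
        have := A.direction.add_mem h (A.direction.smul_mem (2 * ρ)⁻¹ hu)
        rwa [sub_add_cancel] at this
      have h'' := A.direction.smul_mem (‖w‖ ^ 2) h'
      unfold inv at h''
      rwa [smul_smul, mul_inv_cancel₀ hwn.ne', one_smul] at h''
    · intro h
      exact A.direction.sub_mem (A.direction.smul_mem _ h) (A.direction.smul_mem _ hu)
  have h4 : 0 ≤ inner ℝ (inv w - (2 * ρ)⁻¹ • u) u ↔ ‖w‖ ^ 2 ≤ 2 * ρ * inner ℝ w u := by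
    unfold inv
    rw [inner_sub_left, real_inner_smul_left, real_inner_smul_left, real_inner_self_eq_norm_sq,
      hu1]
    have e : (‖w‖ ^ 2)⁻¹ * inner ℝ w u - (2 * ρ)⁻¹ * 1 ^ 2 =
        (2 * ρ * inner ℝ w u - ‖w‖ ^ 2) * ((‖w‖ ^ 2)⁻¹ * (2 * ρ)⁻¹) := by
      field_simp
    rw [e, mul_nonneg_iff_of_pos_right (by positivity), sub_nonneg]
  rw [h1, h2, h3, h4]

/-- round discs of codimension two -/
theorem wild_disc : ∃ Q : ℝ, 1 ≤ Q ∧ ∀ (E : Type) [NormedAddCommGroup E] [InnerProductSpace ℝ E]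
    [FiniteDimensional ℝ E] (A : AffineSubspace ℝ E), 3 ≤ Module.finrank ℝ E →
    Module.finrank ℝ A.direction + 2 = Module.finrank ℝ E → ∀ c ∈ A, ∀ ρ : ℝ, 0 < ρ →
    ∃ f : E → E, Wild Q {x | x ∈ A ∧ dist x c ≤ ρ} f := by
  obtain ⟨Q, hQ, hW⟩ := wild_Fh
  refine ⟨Q * 4, by linarith, ?_⟩
  intro E _ _ _ A hE3 hA c hc ρ hρ
  obtain ⟨m, hm⟩ : ∃ m, Module.finrank ℝ E = 3 + m := ⟨Module.finrank ℝ E - 3, by omega⟩
  obtain ⟨L, hL⟩ := exists_isom A.direction m hm (by omega)
  have hF := (hW (EuclideanSpace ℝ (Fin m))).isom L.symm.toIsometryEquiv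
  set G := EuclideanSpace ℝ (Fin m) with hG
  set u : E := L.symm (u0 G) with hu
  have huL : L u = u0 G := by rw [hu, L.apply_symm_apply]
  have huV : u ∈ A.direction := by rw [hL, huL]; exact u0_mem G
  have hu1 : ‖u‖ = 1 := by rw [← L.norm_map, huL]; exact norm_u0 G
  have hu0 : u ≠ 0 := by
    rw [← norm_pos_iff, hu1]; exact one_pos
  -- the map in the model half space position
  have hF2 : Wild Q (L ⁻¹' H0 G) (fun x => L.symm (Fh G (L x))) := by
    have := hF.comp_homeo (L := 1) (by linarith) one_pos L.toHomeomorph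
      (fun x y => by simp) (fun x y => by simp)
    rw [one_pow, mul_one] at this
    exact this
  refine ⟨_, hF2.comp (R := 4) (by linarith) (mob (c - ρ • u) ((2 * ρ)⁻¹ • u)) ?_ ?_ ?_ ?_⟩
  · intro x hx
    show x ≠ c - ρ • u
    rintro rfl
    apply hx
    refine ⟨?_, ?_⟩
    · have e : c - ρ • u = (-(ρ • u)) +ᵥ c := by rw [vadd_eq_add]; abel
      rw [e]
      exact AffineSubspace.vadd_mem_of_mem_direction
        (A.direction.neg_mem (A.direction.smul_mem _ huV)) hc
    · rw [dist_eq_norm, sub_sub_cancel_left, norm_neg, norm_smul, hu1,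
        Real.norm_of_nonneg hρ.le, mul_one]
  · intro x hx
    have h := disc_iff A c u ρ hρ hc huV hu1 x hx
    rw [mem_setOf_eq, h, mem_preimage, mem_H0, ← hL]
    have : inner ℝ (L (mob (c - ρ • u) ((2 * ρ)⁻¹ • u) x)) (u0 G) =
        inner ℝ (mob (c - ρ • u) ((2 * ρ)⁻¹ • u) x) u := by
      rw [← huL, L.inner_map_map]
    rw [this, mob_apply]
  · intro p hp V hV
    by_cases h : p = c - ρ • u
    · -- move slightly along `u`
      obtain ⟨V', hV'V, hV'o, hpV'⟩ := mem_nhds_iff.1 hV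
      have hcont : Continuous fun t : ℝ => (c - ρ • u) + t • u := by fun_prop
      have hO : (fun t : ℝ => (c - ρ • u) + t • u) ⁻¹' V' ∈ 𝓝 (0 : ℝ) := by
        apply (hV'o.preimage hcont).mem_nhds
        show (c - ρ • u) + (0 : ℝ) • u ∈ V'
        rw [zero_smul, add_zero, ← h]
        exact hpV'
      obtain ⟨δ, hδ, hball⟩ := Metric.mem_nhds_iff.1 hO
      set t := min (δ / 2) ρ with ht
      have ht0 : 0 < t := lt_min (by linarith) hρ
      have htρ : t ≤ ρ := min_le_right _ _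
      have htV : (c - ρ • u) + t • u ∈ V' := by
        apply hball
        rw [Metric.mem_ball, Real.dist_eq, sub_zero, abs_of_pos ht0]
        exact (min_le_left _ _).trans_lt (by linarith)
      refine ⟨(c - ρ • u) + t • u, ⟨?_, ?_⟩, ?_, mem_of_superset (hV'o.mem_nhds htV) hV'V⟩
      · have e : c - ρ • u + t • u = (t • u - ρ • u) +ᵥ c := by rw [vadd_eq_add]; abel
        rw [e]
        exact AffineSubspace.vadd_mem_of_mem_direction
          (A.direction.sub_mem (A.direction.smul_mem _ huV) (A.direction.smul_mem _ huV)) hc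
      · have e : c - ρ • u + t • u - c = -((ρ - t) • u) := by rw [sub_smul]; abel
        rw [dist_eq_norm, e, norm_neg, norm_smul, hu1, Real.norm_of_nonneg (by linarith)]
        linarith
      · show c - ρ • u + t • u ≠ c - ρ • u
        intro h'
        have : t • u = 0 := by simpa using h'
        rcases smul_eq_zero.1 this with h'' | h''
        · exact ht0.ne' h''
        · exact hu0 h''
    · exact ⟨p, hp, h, hV⟩
  · intro x hx
    apply mob_bl
    rintro rfl
    apply hx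
    refine ⟨?_, ?_⟩
    · have e : c - ρ • u = (-(ρ • u)) +ᵥ c := by rw [vadd_eq_add]; abel
      rw [e]
      exact AffineSubspace.vadd_mem_of_mem_direction
        (A.direction.neg_mem (A.direction.smul_mem _ huV)) hc
    · rw [dist_eq_norm, sub_sub_cancel_left, norm_neg, norm_smul, hu1,
        Real.norm_of_nonneg hρ.le, mul_one]

end Pool.Agent.Y256.Seg
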