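import Mathlib

open Set Filter Topology MeasureTheory

namespace Pool.Agent.Y256.Seg

/-- `f` is a local homeomorphism off `S`, near every point off `S` it distorts distances by at most
a factor `Q`, up to a scale that may depend on the point, and it is not injective near any point of
`S`. -/
structure Wild {E E' : Type*} [PseudoMetricSpace E] [PseudoMetricSpace E'] (Q : ℝ) (S : Set E)
    (f : E → E') : Prop where
  lh : IsLocalHomeomorphOn f Sᶜ
  bl : ∀ x, x ∉ S → ∃ W ∈ 𝓝 x, ∃ m : ℝ, 0 < m ∧ ∀ y ∈ W, ∀ z ∈ W,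
      m * dist y z ≤ dist (f y) (f z) ∧ dist (f y) (f z) ≤ Q * m * dist y z
  ni : ∀ p ∈ S, ∀ V ∈ 𝓝 p, ∃ y ∈ V, ∃ z ∈ V, y ∉ S ∧ z ∉ S ∧ y ≠ z ∧ f y = f z

section comp

variable {E E' E1 : Type*} [PseudoMetricSpace E] [PseudoMetricSpace E'] [MetricSpace E1]

/-- precomposition with a partial homeomorphism -/
theorem Wild.comp {Q R : ℝ} {S : Set E} {T : Set E1} {f : E → E'} (hf : Wild Q S f)
    (hQ : 0 ≤ Q) (G : OpenPartialHomeomorph E1 E)
    (hT : Tᶜ ⊆ G.source) (hS : ∀ x ∈ G.source, (x ∈ T ↔ G x ∈ S))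
    (hcl : ∀ p ∈ T, ∀ V ∈ 𝓝 p, ∃ p' ∈ T, p' ∈ G.source ∧ V ∈ 𝓝 p')
    (hG : ∀ x, x ∉ T → ∃ W ∈ 𝓝 x, ∃ m : ℝ, 0 < m ∧ ∀ y ∈ W, ∀ z ∈ W,
      m * dist y z ≤ dist (G y) (G z) ∧ dist (G y) (G z) ≤ R * m * dist y z) :
    Wild (Q * R) T (fun x => f (G x)) := by
  refine ⟨?_, ?_, ?_⟩
  · have h1 : IsLocalHomeomorphOn G Tᶜ := fun x hx => ⟨G, hT hx, rfl⟩
    exact hf.lh.comp h1 (fun x hx => fun h => hx ((hS x (hT hx)).2 h))
  · intro x hx
    have hxs : x ∈ G.source := hT hx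
    obtain ⟨W, hW, m, hm, h⟩ := hf.bl (G x) (fun h => hx ((hS x hxs).2 h))
    obtain ⟨W1, hW1, m1, hm1, h1⟩ := hG x hx
    refine ⟨G ⁻¹' W ∩ W1, inter_mem (G.continuousAt hxs hW) hW1, m * m1, by positivity, ?_⟩
    rintro y ⟨hy, hy1⟩ z ⟨hz, hz1⟩
    obtain ⟨a1, a2⟩ := h _ hy _ hz
    obtain ⟨b1, b2⟩ := h1 _ hy1 _ hz1
    constructor
    · calc m * m1 * dist y z = m * (m1 * dist y z) := by ring
        _ ≤ m * dist (G y) (G z) := mul_le_mul_of_nonneg_left b1 hm.le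
        _ ≤ _ := a1
    · calc dist (f (G y)) (f (G z)) ≤ Q * m * dist (G y) (G z) := a2
        _ ≤ Q * m * (R * m1 * dist y z) := mul_le_mul_of_nonneg_left b2 (by positivity)
        _ = _ := by ring
  · intro p hp V hV
    obtain ⟨p', hp', hps, hV'⟩ := hcl p hp V hV
    have hN : G.symm ⁻¹' V ∩ G.target ∈ 𝓝 (G p') := by
      refine inter_mem ?_ (G.open_target.mem_nhds (G.map_source hps))
      apply G.symm.continuousAt (G.map_source hps)
      rwa [G.left_inv hps]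
    obtain ⟨y, ⟨hy, hyt⟩, z, ⟨hz, hzt⟩, hyS, hzS, hyz, hfyz⟩ :=
      hf.ni _ ((hS p' hps).1 hp') _ hN
    refine ⟨G.symm y, hy, G.symm z, hz, ?_, ?_, ?_, ?_⟩
    · intro h
      apply hyS
      have := (hS _ (G.map_target hyt)).1 h
      rwa [G.right_inv hyt] at this
    · intro h
      apply hzS
      have := (hS _ (G.map_target hzt)).1 h
      rwa [G.right_inv hzt] at this
    · intro h
      apply hyz
      rw [← G.right_inv hyt, ← G.right_inv hzt, h]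
    · show f (G (G.symm y)) = f (G (G.symm z))
      rw [G.right_inv hyt, G.right_inv hzt, hfyz]

/-- precomposition with a bi-Lipschitz homeomorphism -/
theorem Wild.comp_homeo {Q L : ℝ} {S : Set E} {f : E → E'} (hf : Wild Q S f)
    (hQ : 0 ≤ Q) (hL : 0 < L) (h : E1 ≃ₜ E)
    (h1 : ∀ x y, dist (h x) (h y) ≤ L * dist x y)
    (h2 : ∀ x y, dist x y ≤ L * dist (h x) (h y)) :
    Wild (Q * L ^ 2) (h ⁻¹' S) (fun x => f (h x)) := by
  refine hf.comp hQ h.toOpenPartialHomeomorph (fun _ _ => mem_univ _) (fun x _ => Iff.rfl)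
    (fun p hp V hV => ⟨p, hp, mem_univ _, hV⟩) (fun x _ => ⟨univ, univ_mem, L⁻¹, by positivity,
      fun y _ z _ => ⟨?_, ?_⟩⟩)
  · show L⁻¹ * dist y z ≤ dist (h y) (h z)
    rw [inv_mul_le_iff₀ hL]
    exact h2 y z
  · show dist (h y) (h z) ≤ L ^ 2 * L⁻¹ * dist y z
    have : L ^ 2 * L⁻¹ = L := by field_simp
    rw [this]
    exact h1 y z

/-- postcomposition with an isometry -/
theorem Wild.isom {E'' : Type*} [PseudoMetricSpace E''] {Q : ℝ} {S : Set E} {f : E → E'}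
    (hf : Wild Q S f) (J : E' ≃ᵢ E'') : Wild Q S (fun x => J (f x)) := by
  refine ⟨?_, ?_, ?_⟩
  · exact (J.toHomeomorph.isLocalHomeomorph.isLocalHomeomorphOn (s := univ)).comp hf.lh
      (fun _ _ => mem_univ _)
  · intro x hx
    obtain ⟨W, hW, m, hm, h⟩ := hf.bl x hx
    refine ⟨W, hW, m, hm, fun y hy z hz => ?_⟩
    rw [J.dist_eq]
    exact h y hy z hz
  · intro p hp V hV
    obtain ⟨y, hy, z, hz, a, b, c, d⟩ := hf.ni p hp V hV
    exact ⟨y, hy, z, hz, a, b, c, congrArg J d⟩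

end comp

section inv

variable {E : Type*} [NormedAddCommGroup E] [InnerProductSpace ℝ E]

/-- inversion in the unit sphere -/
noncomputable def inv (y : E) : E := (‖y‖ ^ 2)⁻¹ • y

theorem norm_inv' {y : E} (hy : y ≠ 0) : ‖inv y‖ = ‖y‖⁻¹ := by
  have h : 0 < ‖y‖ := norm_pos_iff.2 hy
  unfold inv
  rw [norm_smul, norm_inv, norm_pow, norm_norm]
  field_simp

theorem inv_ne_zero' {y : E} (hy : y ≠ 0) : inv y ≠ 0 := by
  rw [← norm_pos_iff, norm_inv' hy]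
  exact inv_pos.2 (norm_pos_iff.2 hy)

theorem inv_inv'' {y : E} (hy : y ≠ 0) : inv (inv y) = y := by
  have h : 0 < ‖y‖ := norm_pos_iff.2 hy
  have h1 : inv (inv y) = (‖inv y‖ ^ 2)⁻¹ • inv y := rfl
  rw [h1, norm_inv' hy]
  unfold inv
  rw [smul_smul]
  have : ((‖y‖⁻¹ ^ 2)⁻¹ * (‖y‖ ^ 2)⁻¹ : ℝ) = 1 := by field_simp
  rw [this, one_smul]

theorem continuousAt_inv {y : E} (hy : y ≠ 0) : ContinuousAt (inv : E → E) y := by
  unfold inv
  have h : ‖y‖ ^ 2 ≠ 0 := pow_ne_zero _ (norm_ne_zero_iff.2 hy)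
  exact ((continuous_norm.pow 2).continuousAt.inv₀ h).smul continuousAt_id

theorem norm_inv_sub {y z : E} (hy : y ≠ 0) (hz : z ≠ 0) :
    ‖inv y - inv z‖ * (‖y‖ * ‖z‖) = ‖y - z‖ := by
  have h1 : 0 < ‖y‖ := norm_pos_iff.2 hy
  have h2 : 0 < ‖z‖ := norm_pos_iff.2 hz
  have h3 : (‖inv y - inv z‖ * (‖y‖ * ‖z‖)) ^ 2 = ‖y - z‖ ^ 2 := by
    rw [mul_pow, norm_sub_sq_real, norm_sub_sq_real, norm_inv' hy, norm_inv' hz]
    have h4 : inner ℝ (inv y) (inv z) = (‖y‖ ^ 2)⁻¹ * ((‖z‖ ^ 2)⁻¹ * inner ℝ y z) := by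
      unfold inv
      rw [real_inner_smul_left, real_inner_smul_right]
    rw [h4]
    field_simp
    ring
  exact (pow_left_inj₀ (by positivity) (norm_nonneg _) (by norm_num)).1 h3

/-- inversion centred at `c` followed by a translation -/
noncomputable def mob (c e : E) : OpenPartialHomeomorph E E where
  toFun y := inv (y - c) - e
  invFun x := inv (x + e) + c
  source := {y | y ≠ c}
  target := {x | x + e ≠ 0}
  map_source' := fun y hy => by
    show inv (y - c) - e + e ≠ 0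
    rw [sub_add_cancel]
    exact inv_ne_zero' (sub_ne_zero.2 hy)
  map_target' := fun x hx => by
    show inv (x + e) + c ≠ c
    intro h
    exact inv_ne_zero' hx (by simpa using h)
  left_inv' := fun y hy => by
    show inv (inv (y - c) - e + e) + c = y
    rw [sub_add_cancel, inv_inv'' (sub_ne_zero.2 hy), sub_add_cancel]
  right_inv' := fun x hx => by
    show inv (inv (x + e) + c - c) - e = x
    rw [add_sub_cancel_right, inv_inv'' hx, add_sub_cancel_right]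
  open_source := isOpen_ne
  open_target := isOpen_ne.preimage (continuous_id.add continuous_const)
  continuousOn_toFun := fun y hy => by
    have h : y - c ≠ 0 := sub_ne_zero.2 hy
    exact ((ContinuousAt.comp (f := fun y : E => y - c) (g := inv) (continuousAt_inv h)
      (continuousAt_id.sub continuousAt_const)).sub continuousAt_const).continuousWithinAt
  continuousOn_invFun := fun x hx => by
    exact ((ContinuousAt.comp (f := fun x : E => x + e) (g := inv) (continuousAt_inv hx)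
      (continuousAt_id.add continuousAt_const)).add continuousAt_const).continuousWithinAt

theorem mob_apply (c e y : E) : mob c e y = inv (y - c) - e := rfl

theorem mob_bl (c e x : E) (hx : x ≠ c) : ∃ W ∈ 𝓝 x, ∃ m : ℝ, 0 < m ∧ ∀ y ∈ W, ∀ z ∈ W,
      m * dist y z ≤ dist (mob c e y) (mob c e z) ∧
      dist (mob c e y) (mob c e z) ≤ 4 * m * dist y z := by
  have hx0 : x - c ≠ 0 := sub_ne_zero.2 hx
  have hxn : 0 < ‖x - c‖ := norm_pos_iff.2 hx0
  have hW0 : {y : E | ‖x - c‖ ^ 2 / 2 < ‖y - c‖ ^ 2 ∧ ‖y - c‖ ^ 2 < 2 * ‖x - c‖ ^ 2} ∈ 𝓝 x := by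
    have hc : Continuous fun y : E => ‖y - c‖ ^ 2 :=
      (continuous_norm.comp (continuous_id.sub continuous_const)).pow 2
    apply IsOpen.mem_nhds
    · exact (isOpen_lt continuous_const hc).inter (isOpen_lt hc continuous_const)
    · have : 0 < ‖x - c‖ ^ 2 := by positivity
      exact ⟨by linarith, by linarith⟩
  refine ⟨_, hW0, 1 / (2 * ‖x - c‖ ^ 2), by positivity, ?_⟩
  rintro y ⟨hy2, hy3⟩ z ⟨hz2, hz3⟩
  have hxx : 0 < ‖x - c‖ ^ 2 := by positivity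
  have hyn : 0 < ‖y - c‖ ^ 2 := by linarith
  have hzn : 0 < ‖z - c‖ ^ 2 := by linarith
  have hy0 : y - c ≠ 0 := by
    intro h; rw [h] at hyn; simp at hyn
  have hz0 : z - c ≠ 0 := by
    intro h; rw [h] at hzn; simp at hzn
  have hlow : ‖x - c‖ ^ 2 / 2 ≤ ‖y - c‖ * ‖z - c‖ := by
    apply le_of_sq_le_sq _ (by positivity)
    have h5 : ‖x - c‖ ^ 2 / 2 * (‖x - c‖ ^ 2 / 2) ≤ ‖y - c‖ ^ 2 * ‖z - c‖ ^ 2 :=
      mul_le_mul hy2.le hz2.le (by positivity) (by positivity)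
    calc (‖x - c‖ ^ 2 / 2) ^ 2 = ‖x - c‖ ^ 2 / 2 * (‖x - c‖ ^ 2 / 2) := by ring
      _ ≤ _ := h5
      _ = _ := by ring
  have hup : ‖y - c‖ * ‖z - c‖ ≤ 2 * ‖x - c‖ ^ 2 := by
    apply le_of_sq_le_sq _ (by positivity)
    have h5 : ‖y - c‖ ^ 2 * ‖z - c‖ ^ 2 ≤ (2 * ‖x - c‖ ^ 2) * (2 * ‖x - c‖ ^ 2) :=
      mul_le_mul hy3.le hz3.le (by positivity) (by positivity)
    calc (‖y - c‖ * ‖z - c‖) ^ 2 = ‖y - c‖ ^ 2 * ‖z - c‖ ^ 2 := by ring
      _ ≤ _ := h5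
      _ = _ := by ring
  have hd : dist (mob c e y) (mob c e z) * (‖y - c‖ * ‖z - c‖) = dist y z := by
    rw [dist_eq_norm, dist_eq_norm, mob_apply, mob_apply, sub_sub_sub_cancel_right,
      norm_inv_sub hy0 hz0, sub_sub_sub_cancel_right]
  set D := dist (mob c e y) (mob c e z) with hD
  have hD0 : 0 ≤ D := dist_nonneg
  constructor
  · rw [← hd, div_mul_eq_mul_div, one_mul, div_le_iff₀ (by positivity)]
    exact mul_le_mul_of_nonneg_left hup hD0
  · have h6 : D * (‖x - c‖ ^ 2 / 2) ≤ D * (‖y - c‖ * ‖z - c‖) := mul_le_mul_of_nonneg_left hlow hD0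
    rw [hd] at h6
    have h7 : 4 * (1 / (2 * ‖x - c‖ ^ 2)) * dist y z = dist y z / (‖x - c‖ ^ 2 / 2) := by
      field_simp
      ring
    rw [h7, le_div_iff₀ (by positivity)]
    exact h6

end inv

section ae

theorem ae_deriv {E E' : Type*} [NormedAddCommGroup E] [NormedSpace ℝ E]
    [NormedAddCommGroup E'] [NormedSpace ℝ E'] (g : E → E') (W : Set E) (Q m : ℝ) (y : E)
    (hW : W ∈ 𝓝 y)
    (h : ∀ z ∈ W, m * dist z y ≤ dist (g z) (g y) ∧ dist (g z) (g y) ≤ Q * m * dist z y)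
    (hd : DifferentiableAt ℝ g y) (v : E) :
    m * ‖v‖ ≤ ‖fderiv ℝ g y v‖ ∧ ‖fderiv ℝ g y v‖ ≤ Q * m * ‖v‖ := by
  have hc : Tendsto (fun n : ℕ => ‖(n : ℝ)‖) atTop atTop := by
    simpa using (tendsto_natCast_atTop_atTop (R := ℝ))
  have hlim := hd.hasFDerivAt.lim v hc
  have hlim2 := hlim.norm
  have hto : Tendsto (fun n : ℕ => y + ((n : ℝ))⁻¹ • v) atTop (𝓝 y) := by
    have h1 : Tendsto (fun n : ℕ => ((n : ℝ))⁻¹ • v) atTop (𝓝 ((0 : ℝ) • v)) :=
      (tendsto_inv_atTop_nhds_zero_nat (𝕜 := ℝ)).smul_const v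
    rw [zero_smul] at h1
    have h2 := h1.const_add y
    rwa [add_zero] at h2
  have hev : ∀ᶠ n : ℕ in atTop, y + ((n : ℝ))⁻¹ • v ∈ W := hto hW
  have hkey : ∀ᶠ n : ℕ in atTop,
      m * ‖v‖ ≤ ‖(n : ℝ) • (g (y + ((n : ℝ))⁻¹ • v) - g y)‖ ∧
      ‖(n : ℝ) • (g (y + ((n : ℝ))⁻¹ • v) - g y)‖ ≤ Q * m * ‖v‖ := by
    filter_upwards [hev, eventually_gt_atTop 0] with n hn hn0
    have hn0' : (0 : ℝ) < n := Nat.cast_pos.2 hn0
    obtain ⟨h1, h2⟩ := h _ hn
    have h3 : dist (y + ((n : ℝ))⁻¹ • v) y = (n : ℝ)⁻¹ * ‖v‖ := by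
      rw [dist_eq_norm, add_sub_cancel_left, norm_smul, Real.norm_of_nonneg (by positivity)]
    rw [h3] at h1 h2
    rw [norm_smul, Real.norm_of_nonneg hn0'.le, ← dist_eq_norm]
    constructor
    · calc m * ‖v‖ = (n : ℝ) * (m * ((n : ℝ)⁻¹ * ‖v‖)) := by field_simp
        _ ≤ _ := mul_le_mul_of_nonneg_left h1 hn0'.le
    · calc (n : ℝ) * dist (g (y + ((n : ℝ))⁻¹ • v)) (g y)
          ≤ (n : ℝ) * (Q * m * ((n : ℝ)⁻¹ * ‖v‖)) := mul_le_mul_of_nonneg_left h2 hn0'.le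
        _ = Q * m * ‖v‖ := by field_simp
  exact ⟨ge_of_tendsto hlim2 (hkey.mono fun n hn => hn.1),
    le_of_tendsto hlim2 (hkey.mono fun n hn => hn.2)⟩

theorem ae_distortion {E E' : Type*} [NormedAddCommGroup E] [NormedSpace ℝ E]
    [FiniteDimensional ℝ E] [MeasurableSpace E] [BorelSpace E]
    [NormedAddCommGroup E'] [NormedSpace ℝ E'] [FiniteDimensional ℝ E']
    (μ : Measure E) [μ.IsAddHaarMeasure] (g : E → E') (Ω : Set E) (hΩ : IsOpen Ω) (Q : ℝ)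
    (h : ∀ x ∈ Ω, ∃ W ∈ 𝓝 x, ∃ m : ℝ, 0 < m ∧ ∀ y ∈ W, ∀ z ∈ W,
      m * dist y z ≤ dist (g y) (g z) ∧ dist (g y) (g z) ≤ Q * m * dist y z) :
    LocallyLipschitzOn Ω g ∧
    ∀ᵐ x ∂(μ.restrict Ω), DifferentiableAt ℝ g x ∧
      ∃ m : ℝ, 0 < m ∧ ∀ v, m * ‖v‖ ≤ ‖fderiv ℝ g x v‖ ∧ ‖fderiv ℝ g x v‖ ≤ Q * m * ‖v‖ := by
  have hLip : ∀ (W : Set E) (m : ℝ), (∀ y ∈ W, ∀ z ∈ W,
      m * dist y z ≤ dist (g y) (g z) ∧ dist (g y) (g z) ≤ Q * m * dist y z) →
      LipschitzOnWith (Real.toNNReal (Q * m)) g W := by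
    intro W m hW
    apply LipschitzOnWith.of_dist_le_mul
    intro y hy z hz
    refine (hW y hy z hz).2.trans ?_
    exact mul_le_mul_of_nonneg_right (Real.le_coe_toNNReal _) dist_nonneg
  constructor
  · intro x hx
    obtain ⟨W, hW, m, hm, hWm⟩ := h x hx
    exact ⟨Real.toNNReal (Q * m), W, mem_nhdsWithin_of_mem_nhds hW, hLip W m hWm⟩
  · haveI : SecondCountableTopology E := inferInstance
    rw [ae_restrict_iff' hΩ.measurableSet, ae_iff]
    apply measure_null_of_locally_null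
    intro x hx
    have hxΩ : x ∈ Ω := by
      by_contra hcon
      exact hx (fun h' => absurd h' hcon)
    obtain ⟨W, hW, m, hm, hWm⟩ := h x hxΩ
    obtain ⟨r, hr, hrW⟩ := Metric.mem_nhds_iff.1 (Filter.inter_mem hW (hΩ.mem_nhds hxΩ))
    have hB : LipschitzOnWith (Real.toNNReal (Q * m)) g (Metric.ball x r) :=
      (hLip W m hWm).mono (fun y hy => (hrW hy).1)
    have hae := hB.ae_differentiableWithinAt_of_mem (μ := μ)
    rw [ae_iff] at hae
    refine ⟨_, Filter.inter_mem (mem_nhdsWithin_of_mem_nhds (Metric.ball_mem_nhds x hr))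
      self_mem_nhdsWithin, ?_⟩
    refine measure_mono_null ?_ hae
    rintro y ⟨hyB, hyS⟩ hdiff
    apply hyS
    intro _
    have hyd : DifferentiableAt ℝ g y :=
      (hdiff hyB).differentiableAt (Metric.isOpen_ball.mem_nhds hyB)
    refine ⟨hyd, m, hm, fun v => ?_⟩
    refine ae_deriv g (Metric.ball x r) Q m y (Metric.isOpen_ball.mem_nhds hyB) ?_ hyd v
    intro z hz
    exact hWm z (hrW hz).1 y (hrW hyB).1

end ae

end Pool.Agent.Y256.Seg
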