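import Pool.Agent.Helper842.SegMain
import Pool.Agent.Y256.Seg.Gen

open Set Filter Topology MeasureTheory

namespace Pool.Agent.Y256.Seg

open Pool.Agent.Helper842.Seg (E3 F e3 norm_e3 F_off ray_NI)
open Pool.Agent.Helper842.SegM (ray)

/-- the map of `helper842` is wild along the ray -/
theorem wild_F : ∃ Q : ℝ, 1 ≤ Q ∧ ∃ m : ℝ, 0 < m ∧ m ≤ 1 ∧ 1 ≤ Q * m ∧
    IsLocalHomeomorphOn F (ray e3)ᶜ ∧
    (∀ x, x ∉ ray e3 → ∃ W ∈ 𝓝 x, ∀ y ∈ W, ∀ z ∈ W,
      m * dist y z ≤ dist (F y) (F z) ∧ dist (F y) (F z) ≤ Q * m * dist y z) := by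
  obtain ⟨K, hK, h1, h2⟩ := F_off
  set M := max K 1 with hM
  have hM1 : 1 ≤ M := le_max_right _ _
  have hMK : K ≤ M := le_max_left _ _
  have hM0 : 0 < M := lt_of_lt_of_le one_pos hM1
  refine ⟨M ^ 2, one_le_pow₀ hM1, M⁻¹, by positivity, inv_le_one_of_one_le₀ hM1, ?_, h1, ?_⟩
  · have : M ^ 2 * M⁻¹ = M := by field_simp
    rw [this]; exact hM1
  · intro x hx
    obtain ⟨W, hW, h⟩ := h2 x hx
    refine ⟨W, hW, fun y hy z hz => ⟨?_, ?_⟩⟩
    · rw [inv_mul_le_iff₀ hM0]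
      exact (h y hy z hz).1.trans (mul_le_mul_of_nonneg_right hMK dist_nonneg)
    · have : M ^ 2 * M⁻¹ = M := by field_simp
      rw [this]
      exact (h y hy z hz).2.trans (mul_le_mul_of_nonneg_right hMK dist_nonneg)

section prod

variable (G : Type*) [NormedAddCommGroup G] [InnerProductSpace ℝ G]

/-- the product of the map of `helper842` with the identity -/
noncomputable def Fh (x : WithLp 2 (E3 × G)) : WithLp 2 (E3 × G) :=
  WithLp.toLp 2 (F x.fst, x.snd)

/-- the closed half space over the ray -/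
def H0 : Set (WithLp 2 (E3 × G)) := {x | x.fst ∈ ray e3}

theorem wild_Fh : ∃ Q : ℝ, 1 ≤ Q ∧ ∀ (G : Type) [NormedAddCommGroup G] [InnerProductSpace ℝ G],
    Wild Q (H0 G) (Fh G) := by
  obtain ⟨Q, hQ, m, hm, hm1, hQm, h1, h2⟩ := wild_F
  refine ⟨Q, hQ, fun G _ _ => ⟨?_, ?_, ?_⟩⟩
  · apply IsLocalHomeomorphOn.mk
    intro x hx
    obtain ⟨φ, hφ, hφ'⟩ := h1 (x.fst) hx
    refine ⟨(WithLp.homeomorphProd 2 E3 G).toOpenPartialHomeomorph.trans
      ((φ.prod (OpenPartialHomeomorph.refl G)).trans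
        (WithLp.homeomorphProd 2 E3 G).symm.toOpenPartialHomeomorph), ?_, ?_⟩
    · simp only [OpenPartialHomeomorph.trans_source, Homeomorph.toOpenPartialHomeomorph_source,
        mem_inter_iff, mem_preimage, mem_univ, true_and,
        OpenPartialHomeomorph.prod_source, OpenPartialHomeomorph.refl_source, preimage_univ,
        inter_univ]
      exact ⟨hφ, mem_univ _⟩
    · intro y _
      show WithLp.toLp 2 (F y.fst, y.snd) = WithLp.toLp 2 (φ y.fst, y.snd)
      rw [hφ']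
  · intro x hx
    obtain ⟨W, hW, h⟩ := h2 _ hx
    have hc : Continuous fun x : WithLp 2 (E3 × G) => x.fst :=
      continuous_fst.comp (WithLp.homeomorphProd 2 E3 G).continuous
    refine ⟨(fun x : WithLp 2 (E3 × G) => x.fst) ⁻¹' W, hc.continuousAt hW, m, hm, ?_⟩
    intro y hy z hz
    obtain ⟨a1, a2⟩ := h _ hy _ hz
    have e1 : dist y z = Real.sqrt (dist y.fst z.fst ^ 2 + dist y.snd z.snd ^ 2) :=
      WithLp.prod_dist_eq_of_L2 y z
    have e2 : dist (Fh G y) (Fh G z) =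
        Real.sqrt (dist (F y.fst) (F z.fst) ^ 2 + dist y.snd z.snd ^ 2) :=
      WithLp.prod_dist_eq_of_L2 _ _
    have hd := dist_nonneg (x := y.fst) (y := z.fst)
    have hs := dist_nonneg (x := y.snd) (y := z.snd)
    have hF := dist_nonneg (x := F y.fst) (y := F z.fst)
    rw [e1, e2]
    constructor
    · apply Real.le_sqrt_of_sq_le
      rw [mul_pow, Real.sq_sqrt (by positivity)]
      have b1 : (m * dist y.fst z.fst) ^ 2 ≤ dist (F y.fst) (F z.fst) ^ 2 :=
        pow_le_pow_left₀ (by positivity) a1 2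
      have b2 : m ^ 2 * dist y.snd z.snd ^ 2 ≤ dist y.snd z.snd ^ 2 := by
        have : m ^ 2 ≤ 1 := pow_le_one₀ hm.le hm1
        nlinarith [sq_nonneg (dist y.snd z.snd)]
      nlinarith
    · rw [Real.sqrt_le_left (by positivity)]
      rw [mul_pow, Real.sq_sqrt (by positivity)]
      have b1 : dist (F y.fst) (F z.fst) ^ 2 ≤ (Q * m * dist y.fst z.fst) ^ 2 :=
        pow_le_pow_left₀ hF a2 2
      have b2 : dist y.snd z.snd ^ 2 ≤ (Q * m) ^ 2 * dist y.snd z.snd ^ 2 := by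
        have : 1 ≤ (Q * m) ^ 2 := one_le_pow₀ hQm
        nlinarith [sq_nonneg (dist y.snd z.snd)]
      nlinarith
  · intro p hp V hV
    have hc : Continuous fun w : E3 => (WithLp.toLp 2 (w, p.snd) : WithLp 2 (E3 × G)) :=
      (WithLp.homeomorphProd 2 E3 G).symm.continuous.comp (Continuous.prodMk_left p.snd)
    have hN : (fun w : E3 => (WithLp.toLp 2 (w, p.snd) : WithLp 2 (E3 × G))) ⁻¹' V ∈ 𝓝 p.fst :=
      hc.continuousAt (by exact hV)
    obtain ⟨y, hy, z, hz, h3, h4, h5, h6⟩ := ray_NI p.fst hp _ hN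
    refine ⟨_, hy, _, hz, h3, h4, ?_, ?_⟩
    · intro h
      apply h5
      exact congrArg (fun w : WithLp 2 (E3 × G) => w.fst) h
    · have h6' : F y = F z := h6
      show WithLp.toLp 2 (F y, p.snd) = WithLp.toLp 2 (F z, p.snd)
      rw [h6']

/-- the codimension two subspace containing the half space -/
def V0 : Submodule ℝ (WithLp 2 (E3 × G)) :=
  (Submodule.span ℝ {e3}).comap (WithLp.fstₗ 2 ℝ E3 G)

end prod

end Pool.Agent.Y256.Seg
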